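import Mathlib
import Pool.Agent.Helper216.XRay.Stmt
import Pool.Agent.Helper216.XRay.P_NN_cont
import Pool.Agent.Helper216.XRay.P_NN_neg
import Pool.Agent.Helper216.XRay.P_NN_pos
import Pool.Agent.Helper216.XRay.P_NN_nice
import Pool.Agent.Helper216.XRay.P_limit_exists
import Pool.Agent.Helper216.XRay.P_mean_c
import Pool.Agent.Helper216.XRay.P_levels_diam
import Pool.Agent.Helper216.XRay.P_prof_K
import Pool.Agent.Helper216.XRay.P_prof_L
import Pool.Agent.Helper216.XRay.P_lim_conc
import Pool.Agent.Helper216.XRay.P_lim_anti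
import Pool.Agent.Helper216.XRay.P_body_admissible
import Pool.Agent.Helper216.XRay.P_body_interior
import Pool.Agent.Helper216.XRay.P_chord_one
import Pool.Agent.Helper216.XRay.P_chord_two

/-!
# Non-uniqueness from two exterior point X-rays, for all pairs of points and in all dimensions

In every Euclidean space of dimension at least two and for every pair of distinct points `x₁`, `x₂`
there are uncountably many pairs of different convex bodies, whose interiors meet the line through
`x₁` and `x₂` and which contain neither point, with the same chord functions at `x₁` and at `x₂`.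
The bodies are obtained from one pair of plane bodies, symmetric about the line through the points,
by stretching orthogonally to the line and by rotating about the line.
-/

set_option autoImplicit false

open Set Filter Topology MeasureTheory Pointwise
open Pool.Agent.Helper216.XRay

namespace Pool.Agent.Results.MP_19f0f5_gt.AllDimensionsAllPoints

/-- The length (diameter) of the intersection of `K` with the line through `x` in the direction
`v`; it is `0` if the intersection is empty. -/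
noncomputable def chordLength {V : Type} [NormedAddCommGroup V] [InnerProductSpace ℝ V]
    (K : Set V) (x v : V) : ℝ :=
  Metric.diam (K ∩ {p | ∃ t : ℝ, p = x + t • v})

/-- `K` is a convex body admissible for the points `x₁`, `x₂`: compact and convex, contains neither
point, and the line through the two points meets the interior of `K`. -/
def IsAdmissible {V : Type} [NormedAddCommGroup V] [InnerProductSpace ℝ V]
    (x₁ x₂ : V) (K : Set V) : Prop :=
  Convex ℝ K ∧ IsCompact K ∧ x₁ ∉ K ∧ x₂ ∉ K ∧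
    ((line[ℝ, x₁, x₂] : Set V) ∩ interior K).Nonempty

/-! ### The pair of plane bodies -/

theorem planar : ∃ (η : ℝ) (f g : ℝ → ℝ), η ∈ Icc (4/100000:ℝ) (5/100000) ∧ Prof 1 2 f ∧
    Prof (η-2) (η-1) g ∧
    (∀ θ : ℝ, chord (body 1 2 f) !₂[-100000, 0] θ =
      chord (body (η-2) (η-1) g) !₂[-100000, 0] θ) ∧
    (∀ θ : ℝ, chord (body 1 2 f) !₂[0, 0] θ = chord (body (η-2) (η-1) g) !₂[0, 0] θ) := by
  have hη0 : ∃ η ∈ Icc (4/100000:ℝ) (5/100000), ∫ X in (0:ℝ)..1, NN η X = 0 := by
    have h := intermediate_value_Icc (by norm_num : (4/100000:ℝ) ≤ 5/100000) NN_cont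
    have h0 : (0:ℝ) ∈ Icc (∫ X in (0:ℝ)..1, NN (4/100000) X) (∫ X in (0:ℝ)..1, NN (5/100000) X) :=
      ⟨NN_neg.le, NN_pos.le⟩
    obtain ⟨η, hη, h1⟩ := h h0
    exact ⟨η, hη, h1⟩
  obtain ⟨η, hη, hm⟩ := hη0
  obtain ⟨N', hN⟩ := NN_nice hη hm
  obtain ⟨w, c, hL, hfix⟩ := limit_exists hN
  have hc : c = 0 := mean_c hN hL hfix
  subst hc
  have hfix' : ∀ s ∈ Ioo (0:ℝ) 1, ∃ x ∈ Ioo 0 (1-s),
      hh w (NN η) x = w s ∧ hh w (NN η) (x+s) = w s := by
    intro s hs
    obtain ⟨x, hx, h1, h2⟩ := hfix s hs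
    exact ⟨x, hx, by simpa using h1, by simpa using h2⟩
  have hd := levels_diam hN hL hfix'
  have hK : Prof 1 2 (Kf w) := prof_K hL (fun a b hb ha => (lim_conc hN hL hb ha).2)
    (lim_anti hL).2.2
  have hLf : Prof (η-2) (η-1) (Lf η w) :=
    prof_L hη hL (fun a b hb ha => (lim_conc hN hL hb ha).1) hK
  exact ⟨η, Kf w, Lf η w, hη, hK, hLf, fun θ => chord_one hη hd, fun θ => chord_two hη⟩

/-! ### Chords -/

section chords

variable {V : Type} [NormedAddCommGroup V] [InnerProductSpace ℝ V]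

theorem chordLength_eq (K : Set V) (x v : V) :
    chordLength K x v = ‖v‖ * Metric.diam {s : ℝ | x + s • v ∈ K} := by
  unfold chordLength
  rcases eq_or_ne v 0 with hv | hv
  · subst hv
    rw [norm_zero, zero_mul]
    apply Metric.diam_subsingleton
    rintro p ⟨-, t, rfl⟩ q ⟨-, s, rfl⟩
    simp
  · have hn : 0 < ‖v‖ := norm_pos_iff.2 hv
    set g : ℝ → V := fun s => x + (s / ‖v‖) • v with hg
    have hiso : Isometry g := by
      apply Isometry.of_dist_eq
      intro a b
      rw [hg]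
      simp only
      rw [dist_add_left, dist_eq_norm, ← sub_smul, norm_smul, dist_eq_norm, ← sub_div, norm_div,
        norm_norm, div_mul_cancel₀ _ hn.ne']
    have hset : K ∩ {p | ∃ t : ℝ, p = x + t • v} = g '' (‖v‖ • {s : ℝ | x + s • v ∈ K}) := by
      ext p
      constructor
      · rintro ⟨hp, t, rfl⟩
        refine ⟨‖v‖ * t, Set.smul_mem_smul_set (a := ‖v‖) (show t ∈ {s : ℝ | x + s • v ∈ K} from hp), ?_⟩
        rw [hg]
        simp only
        rw [mul_div_cancel_left₀ _ hn.ne']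
      · rintro ⟨_, ⟨t, ht, rfl⟩, rfl⟩
        have e : g (‖v‖ • t) = x + t • v := by
          rw [hg]
          simp only [smul_eq_mul]
          rw [mul_div_cancel_left₀ _ hn.ne']
        refine ⟨?_, t, ?_⟩
        · show g (‖v‖ • t) ∈ K
          rw [e]
          exact ht
        · exact e
    rw [hset, hiso.diam_image, diam_smul₀, norm_norm]

end chords

theorem polar (v : E2) (hv : v ≠ 0) : ∃ (r θ : ℝ), 0 < r ∧ v = r • dir θ := by
  set z : ℂ := ⟨v 0, v 1⟩ with hz
  have hz0 : z ≠ 0 := by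
    intro h
    apply hv
    have h0 : v 0 = 0 := congrArg Complex.re h
    have h1 : v 1 = 0 := congrArg Complex.im h
    ext i
    fin_cases i
    · exact h0
    · exact h1
  refine ⟨‖z‖, z.arg, norm_pos_iff.2 hz0, ?_⟩
  ext i
  fin_cases i
  · show v 0 = ‖z‖ * Real.cos z.arg
    rw [Complex.norm_mul_cos_arg]
  · show v 1 = ‖z‖ * Real.sin z.arg
    rw [Complex.norm_mul_sin_arg]

theorem plane_diam {K L : Set E2} {x : E2} (h : ∀ θ : ℝ, chord K x θ = chord L x θ) {u : E2}
    (hu : u ≠ 0) :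
    Metric.diam {s : ℝ | x + s • u ∈ K} = Metric.diam {s : ℝ | x + s • u ∈ L} := by
  obtain ⟨r, θ, hr, hru⟩ := polar u hu
  have hline : {p : E2 | ∃ t : ℝ, p = x + t • u} = {p | ∃ t : ℝ, p = x + t • dir θ} := by
    ext p
    constructor
    · rintro ⟨t, rfl⟩
      exact ⟨t * r, by rw [hru, smul_smul]⟩
    · rintro ⟨t, rfl⟩
      exact ⟨t / r, by rw [hru, smul_smul, div_mul_cancel₀ _ hr.ne']⟩
  have hc : chordLength K x u = chordLength L x u := by
    have := h θ
    unfold chord at this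
    unfold chordLength
    rw [hline]
    exact this
  rw [chordLength_eq, chordLength_eq] at hc
  exact mul_left_cancel₀ (norm_pos_iff.2 hu).ne' hc

theorem abs_le_norm0 (p : E2) : |p 0| ≤ ‖p‖ := by
  rw [← Real.norm_eq_abs]
  exact PiLp.norm_apply_le p 0

theorem abs_le_norm1 (p : E2) : |p 1| ≤ ‖p‖ := by
  rw [← Real.norm_eq_abs]
  exact PiLp.norm_apply_le p 1

/-! ### Stretching and rotating -/

section rotate

variable {V : Type} [NormedAddCommGroup V] [InnerProductSpace ℝ V]

/-- The component of `p` orthogonal to `e`. -/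
def perp (e p : V) : V := p - (inner ℝ e p : ℝ) • e

theorem perp_add (e p q : V) : perp e (p + q) = perp e p + perp e q := by
  unfold perp
  rw [inner_add_right, add_smul]
  abel

theorem perp_smul (e : V) (c : ℝ) (p : V) : perp e (c • p) = c • perp e p := by
  unfold perp
  rw [inner_smul_right, smul_sub, smul_smul]

theorem perp_self {e : V} (he : ‖e‖ = 1) : perp e e = 0 := by
  unfold perp
  rw [real_inner_self_eq_norm_sq, he]
  simp

theorem continuous_perp (e : V) : Continuous (perp e) := by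
  unfold perp
  fun_prop

theorem inner_perp {e : V} (he : ‖e‖ = 1) (p : V) : (inner ℝ e (perp e p) : ℝ) = 0 := by
  unfold perp
  rw [inner_sub_right, inner_smul_right, real_inner_self_eq_norm_sq, he]
  simp

/-- The plane coordinates of a point: its height along the axis and its distance from the axis. -/
noncomputable def coord (y e : V) (ρ t : ℝ) (p : V) : E2 :=
  !₂[(inner ℝ e (p - y) : ℝ) / ρ, ‖perp e (p - y)‖ / t]

/-- The body obtained by stretching and rotating. -/
def rot (y e : V) (ρ t : ℝ) (K : Set E2) : Set V := {p | coord y e ρ t p ∈ K}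

theorem mem_rot_body {y e : V} {ρ t a b : ℝ} {f : ℝ → ℝ} (ht : 0 < t) {p : V} :
    p ∈ rot y e ρ t (body a b f) ↔ (inner ℝ e (p - y) : ℝ) / ρ ∈ Icc a b ∧
      ‖perp e (p - y)‖ ≤ t * f ((inner ℝ e (p - y) : ℝ) / ρ) := by
  show ((inner ℝ e (p - y) : ℝ) / ρ ∈ Icc a b ∧
    |‖perp e (p - y)‖ / t| ≤ f ((inner ℝ e (p - y) : ℝ) / ρ)) ↔ _
  rw [abs_of_nonneg (by positivity), div_le_iff₀ ht, mul_comm (f _) t]

theorem continuous_coord (y e : V) (ρ t : ℝ) : Continuous (coord y e ρ t) := by
  have h1 : Continuous (fun p : V => (inner ℝ e (p - y) : ℝ) / ρ) := by fun_prop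
  have h2 : Continuous (fun p : V => ‖perp e (p - y)‖ / t) := by
    have := continuous_perp e
    fun_prop
  unfold coord
  fun_prop

theorem rot_chord {y e : V} (he : ‖e‖ = 1) {ρ t : ℝ} (hρ : 0 < ρ) (ht : 0 < t)
    {a b a' b' c : ℝ} {f g : ℝ → ℝ}
    (h : ∀ θ : ℝ, chord (body a b f) !₂[c, 0] θ = chord (body a' b' g) !₂[c, 0] θ) (v : V) :
    chordLength (rot y e ρ t (body a b f)) (y + (c * ρ) • e) v =
      chordLength (rot y e ρ t (body a' b' g)) (y + (c * ρ) • e) v := by
  rw [chordLength_eq, chordLength_eq]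
  rcases eq_or_ne v 0 with hv | hv
  · rw [hv, norm_zero, zero_mul, zero_mul]
  · congr 1
    set u : E2 := !₂[(inner ℝ e v : ℝ) / ρ, ‖perp e v‖ / t] with hu
    have hu0 : u ≠ 0 := by
      intro h0
      have h1 : (inner ℝ e v : ℝ) / ρ = 0 := congrArg (fun p : E2 => p 0) h0
      have h2 : ‖perp e v‖ / t = 0 := congrArg (fun p : E2 => p 1) h0
      have h1' : (inner ℝ e v : ℝ) = 0 := by
        rcases div_eq_zero_iff.1 h1 with h | h
        · exact h
        · exact absurd h hρ.ne'
      have h2' : perp e v = 0 := by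
        rcases div_eq_zero_iff.1 h2 with h | h
        · exact norm_eq_zero.1 h
        · exact absurd h ht.ne'
      apply hv
      unfold perp at h2'
      rw [h1', zero_smul, sub_zero] at h2'
      exact h2'
    have key : ∀ (a b : ℝ) (f : ℝ → ℝ), {s : ℝ | y + (c * ρ) • e + s • v ∈ rot y e ρ t (body a b f)} =
        {s : ℝ | (!₂[c, 0] : E2) + s • u ∈ body a b f} := by
      intro a b f
      ext s
      have e1 : y + (c * ρ) • e + s • v - y = (c * ρ) • e + s • v := by abel
      have e2 : (inner ℝ e (y + (c * ρ) • e + s • v - y) : ℝ) / ρ =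
          c + s * ((inner ℝ e v : ℝ) / ρ) := by
        rw [e1, inner_add_right, inner_smul_right, inner_smul_right, real_inner_self_eq_norm_sq, he]
        field_simp
      have e3 : ‖perp e (y + (c * ρ) • e + s • v - y)‖ / t = |s * (‖perp e v‖ / t)| := by
        rw [e1, perp_add, perp_smul, perp_smul, perp_self he, smul_zero, zero_add, norm_smul,
          Real.norm_eq_abs, abs_mul, abs_of_nonneg (show 0 ≤ ‖perp e v‖ / t by positivity)]
        ring
      show ((inner ℝ e (y + (c * ρ) • e + s • v - y) : ℝ) / ρ ∈ Icc a b ∧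
        |‖perp e (y + (c * ρ) • e + s • v - y)‖ / t| ≤
          f ((inner ℝ e (y + (c * ρ) • e + s • v - y) : ℝ) / ρ)) ↔
        (c + s * ((inner ℝ e v : ℝ) / ρ) ∈ Icc a b ∧
          |0 + s * (‖perp e v‖ / t)| ≤ f (c + s * ((inner ℝ e v : ℝ) / ρ)))
      rw [e2, e3, abs_abs, zero_add]
    rw [key, key]
    exact plane_diam h hu0

theorem rot_convex {y e : V} {ρ t : ℝ} (ht : 0 < t) {a b : ℝ} {f : ℝ → ℝ} (h : Prof a b f) :
    Convex ℝ (rot y e ρ t (body a b f)) := by
  intro p hp q hq l m hl hm hlm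
  have hc := body_convex h hp hq hl hm hlm
  have e1 : l • p + m • q - y = l • (p - y) + m • (q - y) := by
    rw [smul_sub, smul_sub]
    have : y = l • y + m • y := by rw [← add_smul, hlm, one_smul]
    nth_rewrite 1 [this]
    abel
  have e2 : (inner ℝ e (l • p + m • q - y) : ℝ) / ρ =
      l * ((inner ℝ e (p - y) : ℝ) / ρ) + m * ((inner ℝ e (q - y) : ℝ) / ρ) := by
    rw [e1, inner_add_right, inner_smul_right, inner_smul_right]
    ring
  have e3 : ‖perp e (l • p + m • q - y)‖ ≤ l * ‖perp e (p - y)‖ + m * ‖perp e (q - y)‖ := by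
    rw [e1, perp_add, perp_smul, perp_smul]
    refine (norm_add_le _ _).trans ?_
    rw [norm_smul, norm_smul, Real.norm_of_nonneg hl, Real.norm_of_nonneg hm]
  have c1 : l * ((inner ℝ e (p - y) : ℝ) / ρ) + m * ((inner ℝ e (q - y) : ℝ) / ρ) ∈ Icc a b := hc.1
  have c2 : |l * (‖perp e (p - y)‖ / t) + m * (‖perp e (q - y)‖ / t)| ≤
    f (l * ((inner ℝ e (p - y) : ℝ) / ρ) + m * ((inner ℝ e (q - y) : ℝ) / ρ)) := hc.2
  refine (mem_rot_body ht).2 ⟨?_, ?_⟩
  · rw [e2]
    exact c1
  · rw [e2]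
    refine e3.trans ?_
    rw [← div_le_iff₀' ht]
    refine le_trans (le_of_eq ?_) ((le_abs_self _).trans c2)
    ring

theorem rot_compact [FiniteDimensional ℝ V] {y e : V} (he : ‖e‖ = 1) {ρ t : ℝ} (hρ : 0 < ρ)
    (ht : 0 < t) {a b : ℝ} {f : ℝ → ℝ} (h : Prof a b f) :
    IsCompact (rot y e ρ t (body a b f)) := by
  have : ProperSpace V := FiniteDimensional.proper ℝ V
  have hb := body_compact h
  obtain ⟨M, hM⟩ := hb.isBounded.exists_norm_le
  apply Metric.isCompact_of_isClosed_isBounded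
  · exact hb.isClosed.preimage (continuous_coord y e ρ t)
  · apply Bornology.IsBounded.subset (Metric.isBounded_closedBall (x := y) (r := M * ρ + M * t))
    intro p hp
    rw [Metric.mem_closedBall, dist_eq_norm]
    have h1 : ‖coord y e ρ t p‖ ≤ M := hM _ hp
    have h2 : |(inner ℝ e (p - y) : ℝ) / ρ| ≤ M :=
      (abs_le_norm0 (coord y e ρ t p)).trans h1
    have h3 : |‖perp e (p - y)‖ / t| ≤ M := (abs_le_norm1 (coord y e ρ t p)).trans h1
    rw [abs_div, abs_of_pos hρ, div_le_iff₀ hρ] at h2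
    rw [abs_div, abs_of_pos ht, div_le_iff₀ ht, abs_norm] at h3
    have h4 : p - y = (inner ℝ e (p - y) : ℝ) • e + perp e (p - y) := by
      unfold perp; abel
    rw [h4]
    refine (norm_add_le _ _).trans (add_le_add ?_ h3)
    rw [norm_smul, he, mul_one]
    exact h2

theorem inner_axis {y e : V} (he : ‖e‖ = 1) (c : ℝ) : (inner ℝ e (y + c • e - y) : ℝ) = c := by
  rw [add_sub_cancel_left, inner_smul_right, real_inner_self_eq_norm_sq, he]
  ring

theorem perp_axis {y e : V} (he : ‖e‖ = 1) (c : ℝ) : perp e (y + c • e - y) = 0 := by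
  rw [add_sub_cancel_left, perp_smul, perp_self he, smul_zero]

theorem rot_interior {y e : V} (he : ‖e‖ = 1) {ρ t : ℝ} (hρ : 0 < ρ)
    {a b c : ℝ} {f : ℝ → ℝ} (h : Prof a b f) (hc : c ∈ Ioo a b) :
    y + (c * ρ) • e ∈ interior (rot y e ρ t (body a b f)) := by
  have h1 : coord y e ρ t ⁻¹' interior (body a b f) ⊆ interior (rot y e ρ t (body a b f)) :=
    interior_maximal (fun p hp => (interior_subset
      (show coord y e ρ t p ∈ interior (body a b f) from hp) : coord y e ρ t p ∈ body a b f))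
      (isOpen_interior.preimage (continuous_coord y e ρ t))
  apply h1
  show coord y e ρ t (y + (c * ρ) • e) ∈ interior (body a b f)
  have h2 : coord y e ρ t (y + (c * ρ) • e) = !₂[c, 0] := by
    unfold coord
    rw [inner_axis he, perp_axis he, norm_zero, zero_div, mul_div_cancel_right₀ _ hρ.ne']
  rw [h2]
  exact body_interior h hc

theorem rot_admissible [FiniteDimensional ℝ V] {y₁ y₂ e : V} (he : ‖e‖ = 1) {ρ t : ℝ}
    (hρ : 0 < ρ) (ht : 0 < t) {N : ℝ} (hN : N ≠ 0) (hy : y₁ = y₂ + (N * ρ) • e)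
    {a b : ℝ} {f : ℝ → ℝ} (h : Prof a b f) (h1 : N ∉ Icc a b) (h2 : 0 ∉ Icc a b) :
    IsAdmissible y₁ y₂ (rot y₂ e ρ t (body a b f)) := by
  refine ⟨rot_convex ht h, rot_compact he hρ ht h, ?_, ?_,
    y₂ + ((a + b) / 2 * ρ) • e, ?_, rot_interior he hρ h ⟨?_, ?_⟩⟩
  · intro hm
    have := ((mem_rot_body ht).1 hm).1
    rw [hy, inner_axis he, mul_div_cancel_right₀ _ hρ.ne'] at this
    exact h1 this
  · intro hm
    have := ((mem_rot_body ht).1 hm).1
    rw [sub_self, inner_zero_right, zero_div] at this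
    exact h2 this
  · have h3 : y₂ + ((a + b) / 2 * ρ) • e = AffineMap.lineMap y₁ y₂ (1 - (a + b) / 2 / N) := by
      rw [AffineMap.lineMap_apply, hy, vsub_eq_sub, vadd_eq_add]
      have h4 : y₂ - (y₂ + (N * ρ) • e) = -((N * ρ) • e) := by abel
      rw [h4, smul_neg, smul_smul]
      have h5 : (1 - (a + b) / 2 / N) * (N * ρ) = N * ρ - (a + b) / 2 * ρ := by
        field_simp
      rw [h5, sub_smul]
      abel
    rw [h3]
    exact AffineMap.lineMap_mem_affineSpan_pair _ _ _
  · linarith [h.lt]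
  · linarith [h.lt]

/-- The bodies are strictly increasing in the stretching factor, in dimension at least two. -/
theorem rot_strictMono [FiniteDimensional ℝ V] (hV : 2 ≤ Module.finrank ℝ V) {y e : V}
    (he : ‖e‖ = 1) {ρ : ℝ} (hρ : 0 < ρ) {a b : ℝ} {f : ℝ → ℝ} (h : Prof a b f) {t t' : ℝ}
    (ht : 0 < t) (htt : t < t') :
    rot y e ρ t (body a b f) < rot y e ρ t' (body a b f) := by
  have ht' : 0 < t' := ht.trans htt
  have he0 : e ≠ 0 := by
    intro h0
    rw [h0, norm_zero] at he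
    exact zero_ne_one he
  change rot y e ρ t (body a b f) ⊂ rot y e ρ t' (body a b f)
  rw [Set.ssubset_iff_of_subset]
  · obtain ⟨z, hz⟩ := exists_linearIndependent_pair_of_one_lt_finrank (R := ℝ) (M := V)
      (by omega) he0
    have hw0 : perp e z ≠ 0 := by
      intro h0
      rw [LinearIndependent.pair_iff] at hz
      have := hz (-(inner ℝ e z : ℝ)) 1 (by
        unfold perp at h0
        rw [one_smul, neg_smul, neg_add_eq_sub]
        exact h0)
      exact one_ne_zero this.2
    set w : V := ‖perp e z‖⁻¹ • perp e z with hw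
    have hw1 : ‖w‖ = 1 := by
      rw [hw, norm_smul, norm_inv, norm_norm, inv_mul_cancel₀ (norm_pos_iff.2 hw0).ne']
    have hwe : (inner ℝ e w : ℝ) = 0 := by
      rw [hw, inner_smul_right, inner_perp he, mul_zero]
    have hwp : perp e w = w := by
      unfold perp
      rw [hwe, zero_smul, sub_zero]
    set c : ℝ := (a + b) / 2 with hc
    have hcm : c ∈ Ioo a b := ⟨by rw [hc]; linarith [h.lt], by rw [hc]; linarith [h.lt]⟩
    have hpos : 0 < f c := h.pos c hcm
    have h1 : ∀ s : ℝ, y + ((c * ρ) • e + s • w) - y = (c * ρ) • e + s • w := fun s => by abel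
    have h2 : (inner ℝ e ((c * ρ) • e + (t' * f c) • w) : ℝ) / ρ = c := by
      rw [inner_add_right, inner_smul_right, inner_smul_right, hwe, mul_zero, add_zero,
        real_inner_self_eq_norm_sq, he, one_pow, mul_one, mul_div_cancel_right₀ _ hρ.ne']
    have h3 : ‖perp e ((c * ρ) • e + (t' * f c) • w)‖ = t' * f c := by
      rw [perp_add, perp_smul, perp_smul, perp_self he, smul_zero, zero_add, hwp, norm_smul, hw1,
        mul_one, Real.norm_of_nonneg (by positivity)]
    refine ⟨y + ((c * ρ) • e + (t' * f c) • w), ?_, ?_⟩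
    · rw [mem_rot_body ht', h1, h2, h3]
      exact ⟨Ioo_subset_Icc_self hcm, le_rfl⟩
    · rw [mem_rot_body ht, h1, h2, h3]
      rintro ⟨-, h4⟩
      exact absurd h4 (not_le.2 (mul_lt_mul_of_pos_right htt hpos))
  · intro p hp
    rw [mem_rot_body ht] at hp
    rw [mem_rot_body ht']
    refine ⟨hp.1, ?_⟩
    have h0 : 0 ≤ t * f ((inner ℝ e (p - y) : ℝ) / ρ) := (norm_nonneg _).trans hp.2
    have h1 : 0 ≤ f ((inner ℝ e (p - y) : ℝ) / ρ) := nonneg_of_mul_nonneg_right h0 ht
    exact hp.2.trans (mul_le_mul_of_nonneg_right htt.le h1)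

end rotate

/-- In every Euclidean space of dimension at least two and for all distinct points `x₁`, `x₂` there
are families `K t`, `L t` (`t > 0`) of convex bodies, both strictly increasing in `t` (so there are
uncountably many pairs), such that for every `t > 0` the bodies `K t` and `L t` are different, are
admissible for `x₁`, `x₂`, have the same chord functions at `x₁` and at `x₂` and lie within distance
`t` of the line through `x₁` and `x₂`. -/
theorem result (V : Type) [NormedAddCommGroup V] [InnerProductSpace ℝ V] [FiniteDimensional ℝ V]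
    (hV : 2 ≤ Module.finrank ℝ V) (x₁ x₂ : V) (hx : x₁ ≠ x₂) :
    ∃ K L : ℝ → Set V, StrictMonoOn K (Ioi 0) ∧ StrictMonoOn L (Ioi 0) ∧ ∀ t : ℝ, 0 < t →
      IsAdmissible x₁ x₂ (K t) ∧ IsAdmissible x₁ x₂ (L t) ∧ K t ≠ L t ∧
      (∀ v : V, chordLength (K t) x₁ v = chordLength (L t) x₁ v) ∧
      (∀ v : V, chordLength (K t) x₂ v = chordLength (L t) x₂ v) ∧
      ∀ p ∈ K t ∪ L t, ∃ q ∈ line[ℝ, x₁, x₂], dist p q ≤ t := by
  obtain ⟨η, f, g, hη, hf, hg, hc1, hc2⟩ := planar
  obtain ⟨M₁, hM₁⟩ := (body_compact hf).isBounded.exists_norm_le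
  obtain ⟨M₂, hM₂⟩ := (body_compact hg).isBounded.exists_norm_le
  set M : ℝ := |M₁| + |M₂| + 1 with hM
  have hMpos : 0 < M := by positivity
  have hD : 0 < ‖x₂ - x₁‖ := norm_pos_iff.2 (sub_ne_zero.2 hx.symm)
  set e : V := ‖x₂ - x₁‖⁻¹ • (x₂ - x₁) with he
  have he1 : ‖e‖ = 1 := by
    rw [he, norm_smul, norm_inv, norm_norm, inv_mul_cancel₀ hD.ne']
  set ρ : ℝ := ‖x₂ - x₁‖ / 100000 with hρ
  have hρ0 : 0 < ρ := by positivity
  have hx1 : x₁ = x₂ + (-100000 * ρ) • e := by
    rw [he, smul_smul]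
    have : -100000 * ρ * ‖x₂ - x₁‖⁻¹ = -1 := by
      rw [hρ]
      field_simp
    rw [this, neg_one_smul]
    abel
  have hx2 : x₂ = x₂ + ((0:ℝ) * ρ) • e := by
    rw [zero_mul, zero_smul, add_zero]
  have n1 : (0:ℝ) ∉ Icc (1:ℝ) 2 := by rintro ⟨h, _⟩; linarith
  have n2 : (0:ℝ) ∉ Icc (η-2) (η-1) := by rintro ⟨_, h⟩; linarith [hη.2]
  have n3 : (-100000:ℝ) ∉ Icc (1:ℝ) 2 := by rintro ⟨h, _⟩; linarith
  have n4 : (-100000:ℝ) ∉ Icc (η-2) (η-1) := by rintro ⟨h, _⟩; linarith [hη.1]
  have thin : ∀ (a b : ℝ) (u : ℝ → ℝ) (M' : ℝ), (∀ p ∈ body a b u, ‖p‖ ≤ M') → M' ≤ M → ∀ t : ℝ,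
      0 < t → ∀ p ∈ rot x₂ e ρ (t / M) (body a b u), ∃ q ∈ line[ℝ, x₁, x₂], dist p q ≤ t := by
    intro a b u M' hM' hle t ht p hp
    refine ⟨x₂ + (inner ℝ e (p - x₂) : ℝ) • e, ?_, ?_⟩
    · have h3 : x₂ + (inner ℝ e (p - x₂) : ℝ) • e =
          AffineMap.lineMap x₁ x₂ (1 + (inner ℝ e (p - x₂) : ℝ) * ‖x₂ - x₁‖⁻¹) := by
        rw [AffineMap.lineMap_apply, vsub_eq_sub, vadd_eq_add, add_smul, one_smul, mul_smul, ← he]
        abel
      rw [h3]
      exact AffineMap.lineMap_mem_affineSpan_pair _ _ _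
    · have h1 : ‖coord x₂ e ρ (t / M) p‖ ≤ M' := hM' _ hp
      have h2 : |‖perp e (p - x₂)‖ / (t / M)| ≤ M' :=
        (abs_le_norm1 (coord x₂ e ρ (t / M) p)).trans h1
      have htM : 0 < t / M := by positivity
      rw [abs_div, abs_of_pos htM, div_le_iff₀ htM, abs_norm] at h2
      have h3 : p - (x₂ + (inner ℝ e (p - x₂) : ℝ) • e) = perp e (p - x₂) := by
        unfold perp; abel
      rw [dist_eq_norm, h3]
      refine h2.trans ?_
      calc M' * (t / M) ≤ M * (t / M) := mul_le_mul_of_nonneg_right hle htM.le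
        _ = t := by field_simp
  have hMle1 : M₁ ≤ M := by
    have := le_abs_self M₁
    have := abs_nonneg M₂
    rw [hM]; linarith
  have hMle2 : M₂ ≤ M := by
    have := le_abs_self M₂
    have := abs_nonneg M₁
    rw [hM]; linarith
  refine ⟨fun t => rot x₂ e ρ (t / M) (body 1 2 f), fun t => rot x₂ e ρ (t / M) (body (η-2) (η-1) g),
    ?_, ?_, fun t ht => ⟨?_, ?_, ?_, ?_, ?_, ?_⟩⟩
  · intro t ht t' _ htt
    exact rot_strictMono hV he1 hρ0 hf (div_pos ht hMpos) (div_lt_div_of_pos_right htt hMpos)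
  · intro t ht t' _ htt
    exact rot_strictMono hV he1 hρ0 hg (div_pos ht hMpos) (div_lt_div_of_pos_right htt hMpos)
  · exact rot_admissible he1 hρ0 (div_pos ht hMpos) (by norm_num) hx1 hf n3 n1
  · exact rot_admissible he1 hρ0 (div_pos ht hMpos) (by norm_num) hx1 hg n4 n2
  · intro h
    have h1 : x₂ + (3 / 2 * ρ) • e ∈ rot x₂ e ρ (t / M) (body 1 2 f) :=
      interior_subset (rot_interior he1 hρ0 hf ⟨by norm_num, by norm_num⟩)
    have h2 : x₂ + (3 / 2 * ρ) • e ∈ rot x₂ e ρ (t / M) (body (η-2) (η-1) g) := by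
      have h' : rot x₂ e ρ (t / M) (body 1 2 f) = rot x₂ e ρ (t / M) (body (η-2) (η-1) g) := h
      rw [← h']; exact h1
    have h3 := ((mem_rot_body (div_pos ht hMpos)).1 h2).1
    rw [inner_axis he1, mul_div_cancel_right₀ _ hρ0.ne'] at h3
    linarith [h3.2, hη.2]
  · intro v
    have := rot_chord (y := x₂) he1 hρ0 (div_pos ht hMpos) hc1 v
    rw [← hx1] at this
    exact this
  · intro v
    have := rot_chord (y := x₂) he1 hρ0 (div_pos ht hMpos) hc2 v
    rw [← hx2] at this
    exact this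
  · rintro p (hp | hp)
    · exact thin 1 2 f M₁ hM₁ hMle1 t ht p hp
    · exact thin (η-2) (η-1) g M₂ hM₂ hMle2 t ht p hp

end Pool.Agent.Results.MP_19f0f5_gt.AllDimensionsAllPoints
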